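import Pool.Agent.Lib.MP_da167d_an.Final
import Pool.Agent.Lib.MP_da167d_an.Brouwer
import Pool.Agent.Lib.MP_da167d_an.Rigid
import Pool.Agent.Lib.MP_da167d_an.MixX
import Pool.Agent.Lib.MP_da167d_an.Greedy
import Pool.Agent.Lib.MP_da167d_an.MixCol
import Pool.Agent.Lib.MP_da167d_an.Prod
import Pool.Agent.Lib.MP_da167d_an.Av
import Pool.Agent.Lib.MP_da167d_an.NotD
import Pool.Agent.Lib.MP_da167d_an.Trans
import Pool.Agent.Lib.MP_da167d_an.Mono
import Pool.Agent.Lib.MP_da167d_an.Card

set_option autoImplicit false

/-!
The width of the free mixing Cantor actions of a countable group `G` is the cardinality of the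
continuum as soon as, for infinitely many primes `p`, there is a finitely generated one-ended
subgroup of `G` (for instance `G` itself) without elements of order `p`.

For every such prime let `D_p` be the property that there are continuous functions `ξ_s` to
`ZMod p`, `s` in a finite generating set of the subgroup, with `∑ (ξ_s x - ξ_s (s⁻¹ x)) = 1`.  It is
inherited under weak containment.  The subshift of all chains with boundary `1` modulo `p` is mixing
because the subgroup is one-ended, and `D_p` fails for an action which receives an equivariant map
from a compact space with an invariant finitely additive measure with values in `ZMod p` and total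
mass `1`.
-/

namespace Pool.Agent.Results.MP_da167d_an.MissingTorsion

open Pool.Agent.Lib.MP_da167d_an Cardinal

theorem result (G : Type) [Group G] [Countable G]
    (h : {p : ℕ | p.Prime ∧ ∃ (H : Type) (_ : Group H) (φ : H →* G), Function.Injective φ ∧
      OneEnded H ∧ ∀ x : H, orderOf x ≠ p}.Infinite) :
    width {a : Act G | IsFree a ∧ IsMixing a} = 𝔠 :=
  stFinal stRigid stMixX (stMixCol stGreedy) stProd (stNotD stAv stGreedy) (stTrans stBrouwer)
    stMono stCard stComb G h

end Pool.Agent.Results.MP_da167d_an.MissingTorsion
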